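import Mathlib

/-!
Project VC, part UP: the integral of a function over the set where its means over discs are small.
-/

set_option autoImplicit false

namespace Pool.Agent.P8H78.VC

open MeasureTheory Filter Topology Metric
open scoped ENNReal

/-- the mean over the disc of centre `z` and radius `r` -/
noncomputable def mn (r : ℝ) (f : ℂ → ℝ) (z : ℂ) : ℝ :=
  (1 / Real.pi) * ∫ c in ball (0 : ℂ) 1, f (z + r * c)

theorem mn_cont (r : ℝ) (f : ℂ → ℝ) (hf : Continuous f) (hc : HasCompactSupport f) : Continuous (mn r f) := by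
  obtain ⟨C, hC⟩ := hf.bounded_above_of_compact_support hc
  unfold mn
  apply continuous_const.mul
  have : IsFiniteMeasure (volume.restrict (ball (0 : ℂ) 1)) := ⟨by rw [Measure.restrict_apply_univ]; exact measure_ball_lt_top⟩
  apply continuous_of_dominated (bound := fun _ => C)
  · intro z
    exact (hf.comp (by fun_prop)).aestronglyMeasurable
  · intro z
    filter_upwards with c
    exact hC _
  · exact integrable_const C
  · filter_upwards with c
    exact hf.comp (by fun_prop)

theorem core (f : ℂ → ℝ) (hf : Continuous f) (hc : HasCompactSupport f) (h0 : ∀ z, 0 ≤ f z) (V K1 : Set ℂ)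
    (hV : MeasurableSet V) (hK1 : MeasurableSet K1) (hfin : volume K1 ≠ ⊤) (r η : ℝ) (hη : 0 ≤ η)
    (hVm : ∀ z ∈ V, ∫ c in ball (0 : ℂ) 1, f (z + r * c) ≤ Real.pi * η)
    (hVK : ∀ w c : ℂ, c ∈ ball (0 : ℂ) (1 / 2) → w + r * c ∈ V → w ∈ K1) :
    ∫ z in V, f z ≤ 4 * η * (volume K1).toReal := by
  set H : ℂ → ℝ≥0∞ := V.indicator (fun z => ENNReal.ofReal (f z)) with hH
  have hHm : Measurable H := (hf.measurable.ennreal_ofReal).indicator hV
  set B : Set ℂ := ball (0 : ℂ) (1 / 2) with hB
  have hpi : 0 ≤ Real.pi * η := mul_nonneg Real.pi_pos.le hη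
  -- the inner integral
  have inner_le : ∀ w : ℂ, ∫⁻ c in B, H (w + r * c) ≤ K1.indicator (fun _ => ENNReal.ofReal (Real.pi * η)) w := by
    intro w
    by_cases hex : ∃ c₀ ∈ B, w + r * c₀ ∈ V
    · obtain ⟨c₀, hc₀, hz₀⟩ := hex
      rw [Set.indicator_of_mem (hVK w c₀ hc₀ hz₀)]
      have h1 : ∫⁻ c in B, H (w + r * c) ≤ ∫⁻ c in B, ENNReal.ofReal (f ((w + r * c₀) + r * (c - c₀))) := by
        apply lintegral_mono
        intro c
        have e : (w + r * c₀) + r * (c - c₀) = w + r * c := by ring
        show H (w + r * c) ≤ ENNReal.ofReal (f ((w + r * c₀) + r * (c - c₀)))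
        rw [e]
        exact Set.indicator_le_self' (fun _ _ => zero_le) _
      have h2 : ∫⁻ c in B, ENNReal.ofReal (f ((w + r * c₀) + r * (c - c₀))) ≤
          ∫⁻ c in ball (0 : ℂ) 1, ENNReal.ofReal (f ((w + r * c₀) + r * c)) := by
        rw [← lintegral_indicator measurableSet_ball, ← lintegral_indicator measurableSet_ball]
        have h3 := lintegral_sub_right_eq_self (μ := (volume : Measure ℂ))
          ((ball (0 : ℂ) 1).indicator (fun c => ENNReal.ofReal (f ((w + r * c₀) + r * c)))) c₀
        rw [← h3]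
        apply lintegral_mono
        intro c
        by_cases hcB : c ∈ B
        · have h4 : c - c₀ ∈ ball (0 : ℂ) 1 := by
            rw [hB, mem_ball_zero_iff] at hcB hc₀
            rw [mem_ball_zero_iff]
            calc ‖c - c₀‖ ≤ ‖c‖ + ‖c₀‖ := norm_sub_le _ _
              _ < 1 := by linarith
          rw [Set.indicator_of_mem (show c ∈ ball (0 : ℂ) (1 / 2) from hcB)]
          show ENNReal.ofReal (f (w + r * c₀ + r * (c - c₀))) ≤
            (ball (0 : ℂ) 1).indicator (fun c => ENNReal.ofReal (f ((w + r * c₀) + r * c))) (c - c₀)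
          rw [Set.indicator_of_mem h4]
        · rw [Set.indicator_of_notMem (show c ∉ ball (0 : ℂ) (1 / 2) from hcB)]
          exact zero_le
      have h5 : ∫⁻ c in ball (0 : ℂ) 1, ENNReal.ofReal (f ((w + r * c₀) + r * c)) ≤ ENNReal.ofReal (Real.pi * η) := by
        rw [← ofReal_integral_eq_lintegral_ofReal]
        · exact ENNReal.ofReal_le_ofReal (hVm _ hz₀)
        · obtain ⟨C, hC⟩ := hf.bounded_above_of_compact_support hc
          have : IsFiniteMeasure (volume.restrict (ball (0 : ℂ) 1)) := ⟨by rw [Measure.restrict_apply_univ]; exact measure_ball_lt_top⟩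
          refine Integrable.of_bound (C := C) (hf.comp (by fun_prop)).aestronglyMeasurable ?_
          filter_upwards with c
          exact hC _
        · filter_upwards with c
          exact h0 _
      exact h1.trans (h2.trans h5)
    · push Not at hex
      have h1 : ∫⁻ c in B, H (w + r * c) = ∫⁻ c in B, (0 : ℝ≥0∞) := by
        apply setLIntegral_congr_fun measurableSet_ball
        intro c hcB
        exact Set.indicator_of_notMem (hex c hcB) _
      rw [h1, lintegral_zero]
      exact zero_le
  -- the swap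
  have swap : ∫⁻ c in B, ∫⁻ w, H (w + r * c) = ∫⁻ w, ∫⁻ c in B, H (w + r * c) := by
    apply lintegral_lintegral_swap
    apply Measurable.aemeasurable
    exact hHm.comp (by fun_prop)
  have left : ∫⁻ c in B, ∫⁻ w, H (w + r * c) = (∫⁻ w, H w) * volume B := by
    have h1 : ∀ c : ℂ, ∫⁻ w, H (w + r * c) = ∫⁻ w, H w := fun c => lintegral_add_right_eq_self H (r * c)
    simp_rw [h1]
    rw [setLIntegral_const]
  have right : ∫⁻ w, ∫⁻ c in B, H (w + r * c) ≤ ENNReal.ofReal (Real.pi * η) * volume K1 := by
    refine (lintegral_mono inner_le).trans ?_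
    rw [lintegral_indicator_const hK1]
  have hmain : (∫⁻ w, H w) * volume B ≤ ENNReal.ofReal (Real.pi * η) * volume K1 := by
    rw [← left, swap]
    exact right
  have hvB : volume B = ENNReal.ofReal (Real.pi / 4) := by
    rw [hB, Complex.volume_ball]
    rw [← ENNReal.ofReal_pow (by norm_num), ← ENNReal.ofReal_coe_nnreal, ← ENNReal.ofReal_mul (by positivity)]
    congr 1
    rw [NNReal.coe_real_pi]
    ring
  have hint : Integrable f := hf.integrable_of_hasCompactSupport hc
  have hA : ∫⁻ w, H w = ENNReal.ofReal (∫ z in V, f z) := by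
    rw [hH, lintegral_indicator hV, ofReal_integral_eq_lintegral_ofReal hint.integrableOn]
    filter_upwards with z
    exact h0 z
  rw [hA, hvB, ← ENNReal.ofReal_mul (setIntegral_nonneg hV (fun z _ => h0 z)), ← ENNReal.ofReal_toReal hfin,
    ← ENNReal.ofReal_mul hpi, ENNReal.ofReal_le_ofReal_iff (by positivity)] at hmain
  have hp := Real.pi_pos
  have h1 : Real.pi / 4 * (∫ z in V, f z) ≤ Real.pi / 4 * (4 * η * (volume K1).toReal) := by
    calc Real.pi / 4 * (∫ z in V, f z) = (∫ z in V, f z) * (Real.pi / 4) := mul_comm _ _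
      _ ≤ Real.pi * η * (volume K1).toReal := hmain
      _ = _ := by ring
  exact le_of_mul_le_mul_left h1 (by positivity)

theorem up_core {Ω : Set ℂ} {φ : ℂ → ℝ} (hΩ : IsOpen Ω) (hφ : Continuous φ) (hφc : HasCompactSupport φ)
    (hφΩ : tsupport φ ⊆ Ω) (hφ0 : ∀ z, 0 ≤ φ z) : ∃ C r0 : ℝ, 0 ≤ C ∧ 0 < r0 ∧
    ∀ f : ℂ → ℝ, ContinuousOn f Ω → (∀ z ∈ Ω, 0 ≤ f z) → ∀ r : ℝ, 0 < r → r ≤ r0 →
    ∀ η : ℝ, 0 ≤ η → ∫ z in {z | z ∈ tsupport φ ∧ mn r f z ≤ η}, φ z * f z ≤ C * η := by
  have hS : IsCompact (tsupport φ) := hφc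
  obtain ⟨δ, hδ, hδΩ⟩ := hS.exists_cthickening_subset_open hΩ hφΩ
  have hK : IsCompact (cthickening δ (tsupport φ)) := hS.cthickening
  obtain ⟨M, hM⟩ := hφ.bounded_above_of_compact_support hφc
  have hM0 : 0 ≤ M := (norm_nonneg _).trans (hM 0)
  obtain ⟨χ, hχ1, hχ2, hχ3, hχ4⟩ := exists_continuousMap_one_of_isCompact_subset_isOpen hK hΩ hδΩ
  refine ⟨M * (4 * (volume (cthickening δ (tsupport φ))).toReal), δ, by positivity, hδ, ?_⟩
  intro f hf hf0 r hr hrδ η hη
  set g : ℂ → ℝ := fun z => χ z * f z with hg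
  have hgt : tsupport g ⊆ tsupport χ := by
    apply closure_mono
    intro z hz
    rw [Function.mem_support] at hz ⊢
    intro h
    apply hz
    simp only [hg]
    rw [h, zero_mul]
  have hgc : Continuous g := by
    apply continuous_of_tsupport
    intro z hz
    have hzΩ : z ∈ Ω := hχ3 (hgt hz)
    exact (χ.continuous.continuousAt).mul (hf.continuousAt (hΩ.mem_nhds hzΩ))
  have hgs : HasCompactSupport g := IsCompact.of_isClosed_subset hχ2 (isClosed_tsupport g) hgt
  have hg0 : ∀ z, 0 ≤ g z := by
    intro z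
    by_cases hz : z ∈ Ω
    · exact mul_nonneg (hχ4 z).1 (hf0 z hz)
    · have : χ z = 0 := by
        by_contra h
        exact hz (hχ3 (subset_closure h))
      simp only [hg]
      rw [this, zero_mul]
  have hgf : ∀ z ∈ cthickening δ (tsupport φ), g z = f z := by
    intro z hz
    simp only [hg]
    rw [hχ1 hz, Pi.one_apply, one_mul]
  have hnear : ∀ z ∈ tsupport φ, ∀ c ∈ ball (0 : ℂ) 1, z + r * c ∈ cthickening δ (tsupport φ) := by
    intro z hz c hc
    apply mem_cthickening_of_dist_le _ z δ _ hz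
    rw [dist_eq_norm, add_sub_cancel_left, norm_mul, Complex.norm_real, Real.norm_eq_abs, abs_of_pos hr]
    rw [mem_ball_zero_iff] at hc
    nlinarith [norm_nonneg c]
  have hmean : ∀ z ∈ tsupport φ, mn r f z = mn r g z := by
    intro z hz
    unfold mn
    congr 1
    apply setIntegral_congr_fun measurableSet_ball
    intro c hc
    exact (hgf _ (hnear z hz c hc)).symm
  set V : Set ℂ := {z | z ∈ tsupport φ ∧ mn r f z ≤ η} with hV
  have hVe : V = tsupport φ ∩ {z | mn r g z ≤ η} := by
    ext z
    simp only [hV, Set.mem_ofPred_eq, Set.mem_inter_iff]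
    constructor
    · rintro ⟨h1, h2⟩
      exact ⟨h1, by rw [← hmean z h1]; exact h2⟩
    · rintro ⟨h1, h2⟩
      exact ⟨h1, by rw [hmean z h1]; exact h2⟩
  have hVc : IsClosed V := by
    rw [hVe]
    exact (isClosed_tsupport φ).inter (isClosed_le (mn_cont r g hgc hgs) continuous_const)
  have hVm := hVc.measurableSet
  have hcore := core g hgc hgs hg0 V (cthickening δ (tsupport φ)) hVm isClosed_cthickening.measurableSet
    hK.measure_lt_top.ne r η hη (by
      intro z hz
      rw [hVe] at hz
      have h1 : mn r g z ≤ η := hz.2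
      unfold mn at h1
      rw [div_mul_eq_mul_div, one_mul, div_le_iff₀ Real.pi_pos] at h1
      linarith) (by
      intro w c hc hwc
      rw [hVe] at hwc
      apply mem_cthickening_of_dist_le _ (w + r * c) δ _ hwc.1
      rw [dist_eq_norm, sub_add_cancel_left, norm_neg, norm_mul, Complex.norm_real, Real.norm_eq_abs, abs_of_pos hr]
      rw [mem_ball_zero_iff] at hc
      nlinarith [norm_nonneg c])
  have hsub : ∀ z ∈ V, z ∈ cthickening δ (tsupport φ) := fun z hz => self_subset_cthickening _ hz.1
  have h1 : ∫ z in V, φ z * f z ≤ ∫ z in V, M * g z := by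
    have h2 : ∫ z in V, φ z * f z = ∫ z in V, φ z * g z := by
      apply setIntegral_congr_fun hVm
      intro z hz
      show φ z * f z = φ z * g z
      rw [hgf z (hsub z hz)]
    rw [h2]
    apply setIntegral_mono_on
    · exact ((hφ.mul hgc).integrable_of_hasCompactSupport (hgs.mul_left)).integrableOn
    · exact ((continuous_const.mul hgc).integrable_of_hasCompactSupport (hgs.mul_left)).integrableOn
    · exact hVm
    · intro z _
      exact mul_le_mul_of_nonneg_right ((le_abs_self _).trans (hM z)) (hg0 z)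
  rw [integral_const_mul] at h1
  calc ∫ z in V, φ z * f z ≤ M * ∫ z in V, g z := h1
    _ ≤ M * (4 * η * (volume (cthickening δ (tsupport φ))).toReal) := mul_le_mul_of_nonneg_left hcore hM0
    _ = _ := by ring

end Pool.Agent.P8H78.VC
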