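import Pool.Agent.P8H31.VC.Stm
import Pool.Agent.P8H78.VC.UpCore

/-!
Project VC, part UP.
-/

set_option autoImplicit false

namespace Pool.Agent.P8H78.VC

theorem up : Pool.Agent.P8H31.VC.S_UP := by
  intro Ω φ hΩ hφ hφc hφΩ hφ0
  exact up_core hΩ hφ hφc hφΩ hφ0

end Pool.Agent.P8H78.VC
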